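import Pool.Agent.R253.BE.Dual
import Pool.Agent.R253.BE.Hardy

/-!
# Hardy regularity of kernels of Bergman-space extremal functions (Q1 of MP_397fae_an)

For `1 < p < ∞`, `q = p/(p-1)` and every `1 < q₁ < ∞` (in particular every `q ≤ q₁ < ∞`): if `F` is
the `A^p` extremal function for the nonzero kernel `k ∈ A^q` and `F ∈ H^{(p-1)q₁}`, then
`k ∈ H^{q₁}`.
-/

set_option autoImplicit false

namespace Pool.Agent.Results.MP_397fae_an.KernelHardy

open Complex Metric Set Filter Topology MeasureTheory ComplexConjugate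

/-- area measure on the unit disc, normalised to have total mass one -/
noncomputable def σ : Measure ℂ := ENNReal.ofReal (1 / Real.pi) • volume.restrict (ball (0:ℂ) 1)

/-- the Bergman space `A^r`: `f` is analytic in the disc and `∫ |f|^r dσ < ∞` -/
def InBergman (r : ℝ) (f : ℂ → ℂ) : Prop :=
  DifferentiableOn ℂ f (ball 0 1) ∧ Integrable (fun z => ‖f z‖ ^ r) σ

/-- the norm of `A^r` -/
noncomputable def bergmanNorm (r : ℝ) (f : ℂ → ℂ) : ℝ := (∫ z, ‖f z‖ ^ r ∂σ) ^ (1 / r)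

/-- the functional `φ(f) = ∫ f k̄ dσ` with kernel `k` -/
noncomputable def functional (k f : ℂ → ℂ) : ℂ := ∫ z, f z * conj (k z) ∂σ

/-- `F` is the extremal function for `k`: `F ∈ A^p` has norm one and maximises `Re φ` over all
`g ∈ A^p` of norm one -/
def IsExtremal (p : ℝ) (k F : ℂ → ℂ) : Prop :=
  InBergman p F ∧ bergmanNorm p F = 1 ∧
    ∀ g, InBergman p g → bergmanNorm p g = 1 → (functional k g).re ≤ (functional k F).re

/-- the mean `M_s(f,r)` -/
noncomputable def hardyMean (s : ℝ) (f : ℂ → ℂ) (r : ℝ) : ℝ :=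
  ((2 * Real.pi)⁻¹ * ∫ θ in (0:ℝ)..(2 * Real.pi), ‖f (r * exp (θ * I))‖ ^ s) ^ (1 / s)

/-- the Hardy space `H^s`: `f` is analytic in the disc and `sup_{0<r<1} M_s(f,r) < ∞` -/
def InHardy (s : ℝ) (f : ℂ → ℂ) : Prop :=
  DifferentiableOn ℂ f (ball 0 1) ∧ ∃ C : ℝ, ∀ r ∈ Ioo (0:ℝ) 1, hardyMean s f r ≤ C

/-- a bound of the means bounds the integrals -/
lemma int_le {s : ℝ} (hs : 0 < s) {f : ℂ → ℂ} {r C : ℝ} (h : hardyMean s f r ≤ C) :
    ∫ θ in (0:ℝ)..(2 * Real.pi), ‖f (circleMap 0 r θ)‖ ^ s ≤ 2 * Real.pi * |C| ^ s := by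
  have hcm : ∀ θ : ℝ, (r : ℂ) * exp (θ * I) = circleMap 0 r θ := by
    intro θ; simp [circleMap]
  unfold hardyMean at h
  simp only [hcm] at h
  set J := ∫ θ in (0:ℝ)..(2 * Real.pi), ‖f (circleMap 0 r θ)‖ ^ s with hJ
  have hJ0 : 0 ≤ J := intervalIntegral.integral_nonneg (by positivity) fun θ _ => by positivity
  have h0 : 0 ≤ (2 * Real.pi)⁻¹ * J := by positivity
  have h1 : ((2 * Real.pi)⁻¹ * J) ^ (1 / s) ≤ |C| := h.trans (le_abs_self C)
  have h2 := Real.rpow_le_rpow (by positivity) h1 hs.le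
  rw [← Real.rpow_mul h0, one_div_mul_cancel hs.ne', Real.rpow_one] at h2
  rw [inv_mul_le_iff₀ (by positivity)] at h2
  exact h2

/-- a bound of the integrals bounds the means -/
lemma mean_le {s : ℝ} (hs : 0 < s) {f : ℂ → ℂ} {r B : ℝ}
    (h : ∫ θ in (0:ℝ)..(2 * Real.pi), ‖f (circleMap 0 r θ)‖ ^ s ≤ B) :
    hardyMean s f r ≤ ((2 * Real.pi)⁻¹ * B) ^ (1 / s) := by
  have hcm : ∀ θ : ℝ, (r : ℂ) * exp (θ * I) = circleMap 0 r θ := by
    intro θ; simp [circleMap]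
  unfold hardyMean
  simp only [hcm]
  have hJ0 : 0 ≤ ∫ θ in (0:ℝ)..(2 * Real.pi), ‖f (circleMap 0 r θ)‖ ^ s :=
    intervalIntegral.integral_nonneg (by positivity) fun θ _ => by positivity
  apply Real.rpow_le_rpow (by positivity) _ (by positivity)
  exact mul_le_mul_of_nonneg_left h (by positivity)

/-- **Answer to Q1 (affirmative), for all exponents `q₁ > 1`.** Let `1 < p < ∞`, `q = p/(p-1)`,
`1 < q₁ < ∞` (in particular `q ≤ q₁ < ∞`), let `k ∈ A^q` be a nonzero kernel and `F` its extremal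
function. If `F ∈ H^{(p-1)q₁}`, then `k ∈ H^{q₁}`. -/
theorem result : ∀ p q q₁ : ℝ, 1 < p → q = p / (p - 1) → 1 < q₁ → ∀ k F : ℂ → ℂ,
    InBergman q k → (∃ z ∈ ball (0:ℂ) 1, k z ≠ 0) → IsExtremal p k F →
    InHardy ((p - 1) * q₁) F → InHardy q₁ k := by
  intro p q s hp hq hs k F hk _ hF hH
  have hpq : p.HolderConjugate q := by
    rw [hq]; exact Real.HolderConjugate.conjExponent hp
  have hπ : 0 < 1 / Real.pi := by positivity
  have hkA : R253.BE.InA (R253.BE.am (1 / Real.pi)) q k := hk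
  have hFA : R253.BE.IsExt (R253.BE.am (1 / Real.pi)) p k F := hF
  have hs0 : 0 < s - 1 := by linarith
  have hp0 : 0 < p - 1 := by linarith
  set t : ℝ := 1 + 1 / (s - 1) with ht
  have ht1 : 1 < t := by rw [ht]; linarith [one_div_pos.2 hs0]
  have hst : (s - 1) * (t - 1) = 1 := by rw [ht]; field_simp; ring
  obtain ⟨hFd, C0, hC0⟩ := hH
  have hps : 0 < (p - 1) * s := by positivity
  have hMF : ∀ r : ℝ, 0 < r → r < 1 →
      ∫ θ in (0:ℝ)..(2 * Real.pi), ‖F (circleMap 0 r θ)‖ ^ ((p - 1) * s) ≤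
        2 * Real.pi * |C0| ^ ((p - 1) * s) := fun r h0 h1 => int_le hps (hC0 r ⟨h0, h1⟩)
  obtain ⟨C, hC, hΛ⟩ := R253.BE.ub_P1 hπ hpq hs ht1 hst hkA hFA hMF
  obtain ⟨B, hB⟩ := R253.BE.hardy_of_dual hk.1 hs ht1 hst hC hΛ
  exact ⟨hk.1, _, fun r hr => mean_le (by linarith) (hB r hr.1 hr.2)⟩

end Pool.Agent.Results.MP_397fae_an.KernelHardy
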